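import Pool.Agent.Run7.h378.PS.Stm

/-!
# Piece H of project PS of helper378 (MP_2f3180_ag, Q2)

`h ≥ 0` on finite families of nonnegative reals, by induction and Schur's inequality.
-/

set_option autoImplicit false

namespace Run7.h648.PS2

open Run7.h378.PS

/-- Schur's inequality, sorted case -/
theorem schur0 (a b c : ℝ) (hc : 0 ≤ c) (hab : b ≤ a) (hbc : c ≤ b) :
    0 ≤ a * (a - b) * (a - c) + b * (b - a) * (b - c) + c * (c - a) * (c - b) := by
  have h1 : 0 ≤ (a - b) * ((a - b) * (a + b - c)) :=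
    mul_nonneg (by linarith) (mul_nonneg (by linarith) (by linarith))
  have h2 : 0 ≤ c * ((a - c) * (b - c)) :=
    mul_nonneg hc (mul_nonneg (by linarith) (by linarith))
  nlinarith [h1, h2]

theorem schur (a b c : ℝ) (ha : 0 ≤ a) (hb : 0 ≤ b) (hc : 0 ≤ c) :
    0 ≤ a * (a - b) * (a - c) + b * (b - a) * (b - c) + c * (c - a) * (c - b) := by
  rcases le_total a b with h1 | h1 <;> rcases le_total b c with h2 | h2 <;>
    rcases le_total a c with h3 | h3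
  · have := schur0 c b a ha h2 h1; nlinarith [this]
  · have := schur0 c b a ha h2 h1; nlinarith [this]
  · have := schur0 b c a ha h2 h3; nlinarith [this]
  · have := schur0 b a c hc h1 h3; nlinarith [this]
  · have := schur0 c a b hb h3 h1; nlinarith [this]
  · have := schur0 a c b hb h3 h2; nlinarith [this]
  · have := schur0 a b c hc h1 h2; nlinarith [this]
  · have := schur0 a b c hc h1 h2; nlinarith [this]

/-- twice `h₂` -/
def H2 (q2 q3 q4 q5 q6 v : ℝ) : ℝ :=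
  2 * q5 * q2 + v ^ 3 * q2 ^ 2 - 2 * q4 * q3 - 2 * v * q4 * q2 - 2 * v ^ 2 * q3 * q2 +
    3 * v * q3 ^ 2 - v ^ 3 * q4 + 2 * v ^ 2 * q5 - v * q6

theorem H2_step (q2 q3 q4 q5 q6 a v : ℝ) :
    H2 (a ^ 2 + q2) (a ^ 3 + q3) (a ^ 4 + q4) (a ^ 5 + q5) (a ^ 6 + q6) v =
      H2 q2 q3 q4 q5 q6 v + 2 * a ^ 2 * (q5 + (a ^ 3 + v ^ 3) * q2 - (a + v) * q4 -
        (a ^ 2 + v ^ 2) * q3 - (a ^ 2 * v + a * v ^ 2) * q2 + 3 * a * v * q3) := by
  unfold H2; ring

theorem hh_step (q2 q3 q4 q5 q6 a : ℝ) :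
    hh (a ^ 2 + q2) (a ^ 3 + q3) (a ^ 4 + q4) (a ^ 5 + q5) (a ^ 6 + q6) =
      hh q2 q3 q4 q5 q6 + a ^ 2 * H2 q2 q3 q4 q5 q6 a := by
  unfold H2 hh; ring

theorem mid (s : Finset ℕ) (u : ℕ → ℝ) (a v : ℝ) :
    (∑ i ∈ s, u i ^ 5) + (a ^ 3 + v ^ 3) * (∑ i ∈ s, u i ^ 2) - (a + v) * (∑ i ∈ s, u i ^ 4) -
        (a ^ 2 + v ^ 2) * (∑ i ∈ s, u i ^ 3) - (a ^ 2 * v + a * v ^ 2) * (∑ i ∈ s, u i ^ 2) +
        3 * a * v * (∑ i ∈ s, u i ^ 3) =
      ∑ i ∈ s, u i ^ 2 * (u i * (u i - a) * (u i - v) + a * (a - u i) * (a - v) +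
        v * (v - u i) * (v - a)) := by
  simp only [Finset.mul_sum, ← Finset.sum_add_distrib, ← Finset.sum_sub_distrib]
  refine Finset.sum_congr rfl fun i _ => ?_
  ring

theorem H2_nonneg (u : ℕ → ℝ) (hu : ∀ i, 0 ≤ u i) (v : ℝ) (hv : 0 ≤ v) (s : Finset ℕ) :
    0 ≤ H2 (∑ i ∈ s, u i ^ 2) (∑ i ∈ s, u i ^ 3) (∑ i ∈ s, u i ^ 4) (∑ i ∈ s, u i ^ 5)
      (∑ i ∈ s, u i ^ 6) v := by
  classical
  induction s using Finset.induction_on with
  | empty => simp [H2]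
  | insert a s ha ih =>
    simp only [Finset.sum_insert ha]
    rw [H2_step, mid]
    have h1 : 0 ≤ ∑ i ∈ s, u i ^ 2 * (u i * (u i - u a) * (u i - v) +
        u a * (u a - u i) * (u a - v) + v * (v - u i) * (v - u a)) :=
      Finset.sum_nonneg fun i _ => mul_nonneg (sq_nonneg _) (schur _ _ _ (hu i) (hu a) hv)
    have h2 : 0 ≤ 2 * u a ^ 2 * ∑ i ∈ s, u i ^ 2 * (u i * (u i - u a) * (u i - v) +
        u a * (u a - u i) * (u a - v) + v * (v - u i) * (v - u a)) :=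
      mul_nonneg (by positivity) h1
    exact add_nonneg ih h2

/-- the piece H -/
theorem t_H : S_H := by
  classical
  intro s u hu
  induction s using Finset.induction_on with
  | empty => simp [hh]
  | insert a s ha ih =>
    simp only [Finset.sum_insert ha]
    rw [hh_step]
    exact add_nonneg ih (mul_nonneg (sq_nonneg _) (H2_nonneg u hu (u a) (hu a) s))

end Run7.h648.PS2
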