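import Pool.Agent.Run7.h378.PS.Stm

/-!
# Piece PO of project PS of helper378 (MP_2f3180_ag, Q2)

`f > 0` on the unit sphere of `ℓ²`.
-/

set_option autoImplicit false

namespace Run7.h648.PS2

open Run7.h378.PS Filter Topology MvPolynomial

theorem val_gg (x : ℕ → ℝ) : val gg x = (∑' i, x i ^ 2) *
    hh (∑' i, x i ^ 4) (∑' i, x i ^ 6) (∑' i, x i ^ 8) (∑' i, x i ^ 10) (∑' i, x i ^ 12) +
    ∑' i, x i ^ 20 := by
  unfold val gg hh
  simp only [map_add, map_mul, map_sub, map_pow, eval_X, map_ofNat]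

/-- the piece PO -/
theorem t_PO : S_PO := by
  intro hH x hs h1
  have hle : ∀ i, x i ^ 2 ≤ 1 := fun i => by
    rw [← h1]
    exact hs.le_tsum i fun j _ => sq_nonneg _
  have habs : ∀ i, |x i| ≤ 1 := fun i => by
    have := hle i
    rwa [sq_le_one_iff_abs_le_one] at this
  have hsum : ∀ j : ℕ, 2 ≤ j → Summable fun i => x i ^ j := fun j hj => by
    refine Summable.of_norm_bounded hs fun i => ?_
    rw [Real.norm_eq_abs, abs_pow]
    calc |x i| ^ j ≤ |x i| ^ 2 := pow_le_pow_of_le_one (abs_nonneg _) (habs i) hj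
      _ = x i ^ 2 := sq_abs _
  have hT : ∀ j : ℕ, 2 ≤ j → Tendsto (fun n => ∑ i ∈ Finset.range n, x i ^ j) atTop
      (𝓝 (∑' i, x i ^ j)) := fun j hj => (hsum j hj).hasSum.tendsto_sum_nat
  have hh0 : 0 ≤ hh (∑' i, x i ^ 4) (∑' i, x i ^ 6) (∑' i, x i ^ 8) (∑' i, x i ^ 10)
      (∑' i, x i ^ 12) := by
    have hlim : Tendsto (fun n => hh (∑ i ∈ Finset.range n, x i ^ 4)
        (∑ i ∈ Finset.range n, x i ^ 6) (∑ i ∈ Finset.range n, x i ^ 8)
        (∑ i ∈ Finset.range n, x i ^ 10) (∑ i ∈ Finset.range n, x i ^ 12)) atTop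
        (𝓝 (hh (∑' i, x i ^ 4) (∑' i, x i ^ 6) (∑' i, x i ^ 8) (∑' i, x i ^ 10)
          (∑' i, x i ^ 12))) := by
      unfold hh
      have t4 := hT 4 (by norm_num)
      have t6 := hT 6 (by norm_num)
      have t8 := hT 8 (by norm_num)
      have t10 := hT 10 (by norm_num)
      have t12 := hT 12 (by norm_num)
      exact (((((t4.pow 2).mul t10).add (t6.pow 3)).sub
        (((tendsto_const_nhds.mul t4).mul t6).mul t8)).add (t8.mul t10)).sub (t6.mul t12)
    refine ge_of_tendsto' hlim fun n => ?_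
    have := hH (Finset.range n) (fun i => x i ^ 2) fun i => sq_nonneg _
    simp only [← pow_mul] at this
    exact this
  have hpos : 0 < ∑' i, x i ^ 20 := by
    have hex : ∃ i, x i ≠ 0 := by
      by_contra hcon
      push Not at hcon
      simp [hcon] at h1
    obtain ⟨i, hi⟩ := hex
    have hev : Even 20 := by decide
    exact (hsum 20 (by norm_num)).tsum_pos (fun j => hev.pow_nonneg _) i (hev.pow_pos hi)
  rw [val_gg, h1, one_mul]
  exact add_pos_of_nonneg_of_pos hh0 hpos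

end Run7.h648.PS2
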